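import Pool.Agent.Zk28.TF.SP10
import Pool.Agent.Zk28.TF.V4

/-!
# A Bochner principle for the counterexamples of the nonvanishing conjecture

Let `(X, Δ)` be a pair of dimension `n ≥ 1` with `0 ≤ Δ ≤ 1`, for instance an l.c. pair, let `G` be a set
of automorphisms of `X` in codimension one preserving `Δ`, and let `L = K_X + Δ`. Suppose that the regular
functions on `X` are constant and that no multiple `- M L`, `M > 0`, is linearly equivalent to a nonzero
effective divisor. This is so if `X` is projective and `L` is pseudo-effective, for instance nef.

By the Bochner principle the holomorphic tensors on a compact Kähler manifold with trivial canonical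
class are parallel: they have no zeros, and there are at most `n ^ p` of degree `p`, on all finite étale
coverings together. The theorem says that this is true, in codimension one, for all pairs with
pseudo-effective `L` and `κ(X, L) = -∞`, unless they have a foliation with a negative canonical class.

A null group is a `ℚ`-vector space `A` of `G`-invariant divisor classes (up to `ℚ`-linear equivalence)
which contains `L` and no class of a nonzero effective divisor. The multiples of `L` are a null group,
and every null group is contained in a maximal one. Modulo a maximal null group `A` every `G`-invariant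
class is either zero, or positive (effective), or negative, and this is a total order. For instance, for
trivial `G`, let `α` be a movable class with `α . L = 0` and `α . D > 0` for all effective `D ≠ 0`; then
the classes `D` with `α . D = 0` are a maximal null group.

Theorem. Suppose that `κ(X, L) = -∞`, so that `(X, Δ)` is a counterexample of the nonvanishing
conjecture if it is l.c. and `L` is nef, and let `A` be a maximal null group. Then there are two
possibilities.

(A) There is a `G`-invariant foliation `F` on `X`, different from `0` and from the tangent bundle, with a
negative canonical class: `K_F = a - E` with `a` in `A` and a nonzero effective divisor `E`. If there is a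
nonzero multivalued leafwise adapted tensor of degree `m` on `F` with values in an invariant class `γ`
then `γ ≥ (m / rk F) E` modulo `A`; so all tensors on `X` with values in classes in `A` vanish on `F`. If
there is a nonzero multivalued adapted tensor of degree `p` on `X` with values in an invariant class `γ`
then `γ ≥ - (p (n - 1) / rk F) E` modulo `A`. The form of degree `n - rk F` which defines `F` has values
in `a' - E` with `a'` in `A`: it is a tensor with values in `a'` which vanishes along `E`. So (A) holds if
and only if (B) does not hold. Moreover either the divisor `E` is
`G`-invariant and rigid, that is, `κ(E) = 0`, or `0 < κ(E) < n` and `G` preserves the Iitaka fibration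
`X ⇢ Z` of `E` (the function field of `Z` is the algebraic closure in `K` of the field generated by the
ratios of sections of the multiples of `E`), or the leaves of `F` are algebraic and `G` preserves the
fibration `X ⇢ Z` of which they are the fibres (the function field of `Z` is the field of first integrals
of `F`, and the transcendence degree of `K` over it is at most `rk F`). So if `G` preserves neither a
non-trivial fibration nor an effective divisor `E ≠ 0` then (B) holds for all `A`.

(B) No nonzero multivalued adapted tensor (of any degree `p ≥ 1`, with values in any class in `A`)
vanishes along a divisor. The tensors of degree `p` with values in classes in `A`, for ALL classes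
together, are linearly independent over the field of the algebraic functions as soon as those with the
same class are linearly independent over `ℂ`. So for each `p` there are together at most `n ^ p`
independent tensors with values in all the classes `γ j` in `A`, and if there are exactly `n ^ p` then
the sum of the `γ j` is `- p n ^ (p - 1) L`. In particular for `A = ℚ L` they exist for at most `n ^ p`
multiples of `L`, and there are less than `n ^ p` of them with values in `r L`, `r > - p / n`.

(A multivalued adapted tensor of degree `p` with values in `γ` is a section of the `p`-th tensor power of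
the cotangent bundle of the orbifold `(X, Δ)` with values in `γ`, on a finite covering of `X`.)

Examples. (1) Let `α` be as above. If `X` is projective and `(X, Δ)` is l.c. then (A) is not possible, by
the theorem of Campana and Paun on foliations with positive slopes, so that (B) holds for
`A = {D : α . D = 0}`. For instance let `K_X` be nef of numerical dimension `ν`, `H` ample, and
`K_X ^ ν . H ^ (n - 1 - ν) . D > 0` for all prime divisors `D`. Then `κ(X) ≥ 0`, or the tensors of degree
`p` with values in all classes `D` with `K_X ^ ν . H ^ (n - 1 - ν) . D = 0` together are at most `n ^ p`.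
(2) Tensors on finite étale coverings of `X` are multivalued tensors on `X` (with `Δ = 0`). If `X` is a
projective manifold with pseudo-effective `K_X` and `χ(X, O_X) ≠ 0` whose fundamental group has subgroups
of arbitrarily large finite index, then the number of the holomorphic forms on the coverings is not
bounded. So (B) is not possible: `κ(X) ≥ 0`, or there are foliations as in (A).
(3) In the situation of Lazic and Peternell there are tensors of one degree with values in infinitely
many multiples of `L`; they proved `κ ≥ 0` under the hypothesis that minimal models exist in lower
dimensions. By (B) finitely many multiples are sufficient, namely `n ^ p + 1`, or one tensor which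
vanishes along a divisor: `κ(X, L) ≥ 0`, or there are foliations as in (A). No conjecture is assumed.

The function-field language of the starting repository is used. `K` is the function field of `X`, the
prime divisors of `X` are places `P` of `K` (`Place`, `Divisorial`), `P.ord` is the order along `P`, and
`X` is given by the set of its prime divisors, which is locally finite (`LocFin`) as for all varieties:
rational functions have finitely many zeros and poles, and rational vector fields have finitely many
poles. Divisors have real coefficients and finite support (`FinDiv`). The divisor `Δ` is given by its coefficients `δ P`, and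
`K_X` is the divisor `k` of a rational `n`-form `ω`.

Proof. For a maximal null group there is a total preorder on the divisors for which the elements of `A`
are zero and the nonzero effective divisors are strictly positive. If an invariant distribution has a
negative canonical class then the Harder-Narasimhan theory of the invariant distributions for this order
gives (A). Otherwise a tensor with values in an invariant class `γ` exists only if `γ ≥ 0` modulo `A`, and
a tensor with values in `γ - E`, `γ` in `A`, has `E = 0` if the class of `E` is invariant. If it is not
invariant then one uses the determinant of the span of all tensors of the same degree and values.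
Finally let `W` be the span, over the algebraic functions, of tensors with different classes. The
determinants of its bases are tensors with values in `A`. If they vanish nowhere then all the bases have
the same sum of classes, and the determinants differ by constants. In (A), if a multiple of `E` moves then
the Iitaka fibration of `E` is invariant; if `E` is big then the leaves of `F` are algebraic, because the
leafwise tensors of degree `m` are at least `(m / rk F) E`.

(Modules of the proof are by helper17, `Pool/Agent/Zk17/TF/GD.lean`, the determinants of spans of tensors
with values in `A`; by helper80, the full determinant; by helper25, `Pool/Agent/Zk25/TF`, null groups; and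
by helper26, `Pool/Agent/Zk26/TF`, canonical divisors of distributions.)
-/

set_option autoImplicit false

open FF Pool.Agent.W602.GT Pool.Agent.Zk28.TS Pool.Agent.Zk28.TF

namespace Pool.Agent.Results.MP_bc213e_ag.BochnerPrinciple

/-- **The Bochner principle.** Let `X` be a variety of dimension `n ≥ 1` with function field `K`, given by the
set of its prime divisors (locally finite, as for all varieties), `Δ` a boundary with coefficients `δ P` in `[0, 1]`, `k` the divisor of a
nonzero rational `n`-form `ω`, `G` a set of automorphisms in codimension one preserving `Δ`, and
`L = K_X + Δ`. Suppose that the regular functions are constant and that `- M L`, `M > 0`, is not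
equivalent to a nonzero effective divisor (for instance `X` projective, `L` pseudo-effective), and that
no positive multiple of `L` has a nonzero section. Then the multiples of `L` are a null group, every null
group is contained in a maximal one, and for every maximal null group `A` either (A) there are a
foliation `F` and a nonzero effective divisor `E` with `K_F + E` in `A`, with the properties above, or
(B) for all `p > 0` no nonzero adapted tensor of degree `p` with values in `A` vanishes along a divisor,
and adapted tensors `t j` of degree `p` with values in `γ j` in `A` (equivalent `γ j` being equal), such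
that those with the same `γ j` are linearly independent over `ℂ`, are linearly independent over the
algebraic functions; there are at most `n ^ p` of them, with equality only if the sum of the `γ j` is
`- p n ^ (p - 1) L`. -/
theorem result (n : ℕ) (hn : 1 ≤ n) (K : Type) [Field K] [Algebra ℂ K]
    [Algebra.EssFiniteType ℂ K] (htr : Algebra.trdeg ℂ K = n) (X : Set (Place ℂ K))
    (δ : Place ℂ K → ℝ) (hδ : ∀ P ∈ X, 0 ≤ δ P ∧ δ P ≤ 1) (hX : LocFin n X δ)
    (ω : (Fin n → Derivation ℂ K K) → K) (hω : IsPluri 1 ω) (hω0 : ∃ D, ω D ≠ 0)
    (k : Place ℂ K → ℤ) (hk : DivOf n X ω k) (G : Set (K ≃ₐ[ℂ] K))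
    (hG : ∀ σ ∈ G, ∀ P ∈ X, ∃ Q ∈ X, δ Q = δ P ∧ ∀ f, Q.ord (σ f) = P.ord f)
    (hL : NotAntiEffective n X fun P => k P + δ P)
    (hno : ¬ ∃ N : ℕ, 0 < N ∧ ∃ η : (Fin n → Derivation ℂ K K) → K,
      IsSection n X δ N η ∧ ∃ D, η D ≠ 0) :
    FinNull n X G (fun P => k P + δ P) {D | ∃ c : ℚ, QEquiv n X D fun P => c * (k P + δ P)} ∧
    (∀ A₀, FinNull n X G (fun P => k P + δ P) A₀ →
      ∃ A, A₀ ⊆ A ∧ MaxFinNull n X G (fun P => k P + δ P) A) ∧
    ∀ A, MaxFinNull n X G (fun P => k P + δ P) A →
      (∃ (F : Submodule K (Derivation ℂ K K)) (κ E : Place ℂ K → ℝ), F ≠ ⊥ ∧ F ≠ ⊤ ∧
        (∀ D ∈ F, ∀ E ∈ F, ⁅D, E⁆ ∈ F) ∧ Invariant G F ∧ CanonicalDivisor n X δ F κ ∧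
        PosDiv n X E ∧ FinDiv n X E ∧ InvariantClass n X G E ∧ (fun P => κ P + E P) ∈ A ∧
        ((∀ (a : ℕ) (f : K), (∀ P ∈ X, Divisorial n P → -(a * E P) ≤ P.ord f) →
            ∃ c : ℂ, algebraMap ℂ K c = f) ∧
          (∀ σ ∈ G, ∀ P ∈ X, Divisorial n P → ∀ Q ∈ X, Divisorial n Q →
            (∀ f, Q.ord (σ f) = P.ord f) → E Q = E P) ∨
          ∃ Z : IntermediateField ℂ K, FibInv G Z ∧
            ((∀ g, g ∈ Z ↔ IsAlgebraic (IntermediateField.adjoin ℂ (Ratios n X E)) g) ∨
              (∀ g, g ∈ Z ↔ ∀ D ∈ F, D g = 0) ∧
              ∀ (d : ℕ) (z : Fin d → K), AlgebraicIndependent Z z →
                d ≤ Module.finrank K F)) ∧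
        (∀ m : ℕ, 0 < m → ∀ γ : Place ℂ K → ℝ, FinDiv n X γ → InvariantClass n X G γ →
          ∀ s : MultilinearMap K (fun _ : Fin m => F) (AlgebraicClosure K), s ≠ 0 →
            LeafAdapted n X δ γ F s →
            EffMod n X A fun P => γ P - m / Module.finrank K F * E P) ∧
        (∀ p : ℕ, 0 < p → ∀ γ : Place ℂ K → ℝ, FinDiv n X γ → InvariantClass n X G γ →
          ∀ t : MTensor K (Fin p), t ≠ 0 → MAdapted n X δ γ t →
          EffMod n X A fun P => γ P + p * (n - 1) / Module.finrank K F * E P) ∧
        ∃ (p : ℕ) (a : Place ℂ K → ℝ) (t : MTensor K (Fin p)), 0 < p ∧
          p = n - Module.finrank K F ∧ a ∈ A ∧ t ≠ 0 ∧ MAdapted n X δ (fun P => a P - E P) t ∧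
          ∀ D : Fin p → Derivation ℂ K K, (∃ i, D i ∈ F) → t D = 0) ∨
      ∀ p : ℕ, 0 < p →
        (∀ γ ∈ A, ∀ (t : MTensor K (Fin p)) (E : Place ℂ K → ℝ), t ≠ 0 →
          (∀ P ∈ X, Divisorial n P → 0 ≤ E P) → MAdapted n X δ (fun P => γ P - E P) t →
          ∀ P ∈ X, Divisorial n P → E P = 0) ∧
        ∀ (N : ℕ) (γ : Fin N → Place ℂ K → ℝ) (t : Fin N → MTensor K (Fin p)),
          (∀ j, γ j ∈ A) → (∀ j, MAdapted n X δ (γ j) (t j)) →
          (∀ i j, QEquiv n X (γ i) (γ j) → γ i = γ j) →
          (∀ ρ, LinearIndependent ℂ fun j : {j : Fin N // γ j = ρ} => t j) →
          LinearIndependent (AlgebraicClosure K) t ∧ N ≤ n ^ p ∧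
            (N = n ^ p → QEquiv n X (fun P => ∑ j, γ j P)
              fun P => -(p * (n : ℝ) ^ (p - 1) * (k P + δ P))) := by
  classical
  obtain ⟨x, b, hFr⟩ := exists_fr htr
  have hfin := hFr.finite
  have hG' : ∀ g ∈ G, MPreserves X δ (fun _ => (0 : ℝ)) g := by
    intro σ hσ P hPX
    obtain ⟨Q, hQX, hQδ, hQ⟩ := hG σ hσ P hPX
    exact ⟨Q, hQX, hQδ, rfl, hQ⟩
  have hno' : ¬ Eff n X fun P => -((k P : ℝ) + δ P) := by
    intro h
    have h1 := section_of_L (β := fun _ => (0 : ℝ)) hn htr hδ hω hω0 hk (by
      simpa only [add_zero] using h)
    simp only [add_zero] at h1
    exact hno h1
  refine ⟨base_groupF hX (fin_L htr hδ hX hω hω0 hk) (inv_L htr hω hω0 hk hG') hL hno',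
    fun A₀ hA₀ => exists_maxF hX hA₀, fun A hA => ?_⟩
  rcases dichotomyF hn htr hδ hω hω0 hk hG' hX hA with
    ⟨F, κ, E, h1, h2, h3, h4, h5, h6, hfE, h7, h8, -, h10, h11, h12⟩ | ⟨-, -, h3, -, -⟩
  · exact Or.inl ⟨F, κ, E, h1, h2, h3, h4, h5, h6, hfE, h7, h8,
      three_types htr hG' hA.toNullGroup h7 h6.1 h1 h2 h4 h12, h10, h11,
      negative_tensor hn htr hδ hω hω0 hk hA.toNullGroup h2 h5 h8⟩
  · exact Or.inr (bochner_of_noZeros hn htr hδ hω hω0 hk hG' hL.const hA.toNullGroup
      (noZeros_of_effF hX hA.toFinNull h3))

end Pool.Agent.Results.MP_bc213e_ag.BochnerPrinciple
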