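import Pool.Agent.Zk28.TF.SP8
import Pool.Agent.Zk28.TF.V4

/-!
# Effective generic semipositivity for the counterexamples of the nonvanishing conjecture

Let `(X, Δ)` be a pair of dimension `n ≥ 1` with `0 ≤ Δ ≤ 1`, for instance an l.c. pair, let `G` be a set
of automorphisms of `X` in codimension one preserving `Δ`, and let `L = K_X + Δ`. Suppose that the regular
functions on `X` are constant and that no multiple `- M L`, `M > 0`, is linearly equivalent to a nonzero
effective divisor. This is so if `X` is projective and `L` is pseudo-effective, for instance nef. Suppose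
that `κ(X, L) = -∞`, so that `(X, Δ)` is a counterexample of the nonvanishing conjecture if it is l.c. and
`L` is nef.

A null group is a `ℚ`-vector space `A` of `G`-invariant divisor classes (up to `ℚ`-linear equivalence)
which contains `L` and no class of a nonzero effective divisor. The multiples of `L` are a null group,
and every null group is contained in a maximal one. Modulo a maximal null group `A` every `G`-invariant
class `D` is either zero, or positive, or negative: `D` or `D - E` or `D + E` is in `A` for a nonzero
effective divisor `E`, and this is a total order of the classes modulo `A`. So in a counterexample the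
effectivity of all invariant classes can be decided, after forgetting `A`, that is, classes like `L`.

Theorem. For every maximal null group `A` there are two possibilities. (A class is `≥ 0` if it is
effective modulo `A`: the sum of an element of `A` and an effective divisor.)

(B) The tangent bundle and its tensor powers are semistable modulo `A`: for all invariant distributions
`W` we have `K_W ≥ 0`, and if there is a nonzero multivalued adapted tensor on `X`, of any degree, with
values in an invariant class `γ` then `γ ≥ 0`; more generally this is true for leafwise tensors on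
invariant distributions with canonical classes in `A`. These distributions form a lattice, and the
canonical class is additive: `K_{V + W} + K_{V ∩ W} = K_V + K_W`. The lattice is trivial (`0` and the
tangent bundle) only if all nonzero tensors with values in classes `γ` in `A` have `γ = - (p / n) L`,
where `p` is the degree (like the canonical form, with `p = n`). A nonzero tensor of degree `p` with
values in `γ` in `A` gives a foliation in this lattice, not `0` and not the tangent bundle, if `γ` is not
one of the classes `r L`, `r ≤ - p / n`.

(A) There is an invariant foliation `F`, not `0` and not the tangent bundle, the canonical class of which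
is negative modulo `A`: `K_F = a - E`, `a` in `A`, with a nonzero effective divisor `E`. It has the
largest slope: `K_W + (rk W / rk F) E ≥ 0` for all invariant distributions `W`. If there is a nonzero
multivalued leafwise adapted tensor of degree `m` on `F` with values in an invariant class `γ` then
`γ ≥ (m / rk F) E`. If there is a nonzero multivalued adapted tensor of degree `p` on `X` with values in
an invariant class `γ` then `γ + (p (n - 1) / rk F) E ≥ 0`. The form which defines `F` is a tensor of
degree `n - rk F` with values in a class `a' - E`, `a'` in `A`; so (A) and (B) exclude each other, and (A)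
holds if and only if there is a tensor with values in a negative class. And the leaves of `F` have algebraic images
under the rational maps given by the sections of all divisors `M` with an invariant class `M ≤ c E`, for
some `c`.

By the generic semipositivity theorem of Miyaoka and Campana-Paun the canonical classes of the
distributions on a projective l.c. pair with `L` pseudo-effective are not negative on movable curves,
and if a movable class is negative on a canonical class then there are foliations with algebraic leaves.
The theorem is the effective form of this: not being negative on movable curves is replaced by being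
effective modulo classes like `L`, and movable classes are replaced by maximal null groups.

The function-field language of the starting repository is used. `K` is the function field of `X`, the
prime divisors of `X` are places `P` of `K` (`Place`, `Divisorial`), `P.ord` is the order along `P`, and
`X` is given by the set of its prime divisors, which is locally finite (`LocFin`) as for all varieties:
rational functions have finitely many zeros and poles, and rational vector fields have finitely many
poles. Divisors have real coefficients and finite support (`FinDiv`). The divisor `Δ` is given by its coefficients `δ P`, and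
`K_X` is the divisor `k` of a rational `n`-form `ω`. Groups of classes are given by the sets of their
divisors.

Proof. For a maximal null group there is a total preorder on the divisors for which the elements of `A`
are zero and the nonzero effective divisors are strictly positive. (This is a Hahn-Banach argument.) If
an invariant distribution has a negative canonical class for this order then the Harder-Narasimhan theory
of the invariant distributions gives `F`: the determinants of distributions satisfy relations (for sums
and intersections, for brackets, for leafwise tensors) up to effective divisors. By the totality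
positivity and negativity for the preorder mean effectivity and anti-effectivity modulo `A`. The algebraic
images are a consequence of the vanishing of the leafwise tensors (a Bezout type argument).

(The files `Pool/Agent/Zk25/TF/ZN.lean` and `Pool/Agent/Zk25/TF/InvVs.lean`, on the existence of maximal null
groups and on the invariance of the classes of invariant distributions, are by helper25, and
`Pool/Agent/Zk26/TF/LeafDiv.lean`, which compares the determinants of distributions with divisors of
leafwise forms, is by helper26.)
-/

set_option autoImplicit false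

open FF Pool.Agent.W602.GT Pool.Agent.Zk28.TS Pool.Agent.Zk28.TF

namespace Pool.Agent.Results.MP_bc213e_ag.EffectiveSemistability

/-- **Effective semipositivity.** Let `X` be a variety of dimension `n ≥ 1` with function field `K`, given by the
set of its prime divisors (locally finite, as for all varieties), `Δ` a boundary with coefficients `δ P` in `[0, 1]`, `k` the divisor of a
nonzero rational `n`-form `ω`, `G` a set of automorphisms in codimension one preserving `Δ`, and
`L = K_X + Δ`. Suppose that the regular functions are constant and that `- M L`, `M > 0`, is not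
equivalent to a nonzero effective divisor (for instance `X` projective, `L` pseudo-effective), and that
no positive multiple of `L` has a nonzero section. Then the multiples of `L` are a null group, every null
group is contained in a maximal one, and for every maximal null group `A` either (A) there are a
foliation `F` and a nonzero effective divisor `E` with `K_F + E` in `A`, with the properties above, or
(B) the tangent bundle is semistable modulo `A`. -/
theorem result (n : ℕ) (hn : 1 ≤ n) (K : Type) [Field K] [Algebra ℂ K]
    [Algebra.EssFiniteType ℂ K] (htr : Algebra.trdeg ℂ K = n) (X : Set (Place ℂ K))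
    (δ : Place ℂ K → ℝ) (hδ : ∀ P ∈ X, 0 ≤ δ P ∧ δ P ≤ 1) (hX : LocFin n X δ)
    (ω : (Fin n → Derivation ℂ K K) → K) (hω : IsPluri 1 ω) (hω0 : ∃ D, ω D ≠ 0)
    (k : Place ℂ K → ℤ) (hk : DivOf n X ω k) (G : Set (K ≃ₐ[ℂ] K))
    (hG : ∀ σ ∈ G, ∀ P ∈ X, ∃ Q ∈ X, δ Q = δ P ∧ ∀ f, Q.ord (σ f) = P.ord f)
    (hL : NotAntiEffective n X fun P => k P + δ P)
    (hno : ¬ ∃ N : ℕ, 0 < N ∧ ∃ η : (Fin n → Derivation ℂ K K) → K,
      IsSection n X δ N η ∧ ∃ D, η D ≠ 0) :
    FinNull n X G (fun P => k P + δ P) {D | ∃ c : ℚ, QEquiv n X D fun P => c * (k P + δ P)} ∧
    (∀ A₀, FinNull n X G (fun P => k P + δ P) A₀ →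
      ∃ A, A₀ ⊆ A ∧ MaxFinNull n X G (fun P => k P + δ P) A) ∧
    ∀ A, MaxFinNull n X G (fun P => k P + δ P) A →
      (∃ (F : Submodule K (Derivation ℂ K K)) (κ E : Place ℂ K → ℝ), F ≠ ⊥ ∧ F ≠ ⊤ ∧
        (∀ D ∈ F, ∀ E ∈ F, ⁅D, E⁆ ∈ F) ∧ Invariant G F ∧ CanonicalDivisor n X δ F κ ∧
        PosDiv n X E ∧ FinDiv n X E ∧ InvariantClass n X G E ∧ (fun P => κ P + E P) ∈ A ∧
        (∀ (W : Submodule K (Derivation ℂ K K)) (κ' : Place ℂ K → ℝ), Invariant G W →
          CanonicalDivisor n X δ W κ' →
          EffMod n X A fun P => κ' P + Module.finrank K W / Module.finrank K F * E P) ∧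
        (∀ m : ℕ, 0 < m → ∀ γ : Place ℂ K → ℝ, FinDiv n X γ → InvariantClass n X G γ →
          ∀ s : MultilinearMap K (fun _ : Fin m => F) (AlgebraicClosure K), s ≠ 0 →
            LeafAdapted n X δ γ F s →
            EffMod n X A fun P => γ P - m / Module.finrank K F * E P) ∧
        (∀ p : ℕ, 0 < p → ∀ γ : Place ℂ K → ℝ, FinDiv n X γ → InvariantClass n X G γ →
          ∀ t : MTensor K (Fin p), t ≠ 0 → MAdapted n X δ γ t →
          EffMod n X A fun P => γ P + p * (n - 1) / Module.finrank K F * E P) ∧
        (∃ (p : ℕ) (a : Place ℂ K → ℝ) (t : MTensor K (Fin p)), 0 < p ∧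
          p = n - Module.finrank K F ∧ a ∈ A ∧ t ≠ 0 ∧ MAdapted n X δ (fun P => a P - E P) t ∧
          ∀ D : Fin p → Derivation ℂ K K, (∃ i, D i ∈ F) → t D = 0) ∧
        ∀ M : Place ℂ K → ℝ, InvariantClass n X G M →
          (∃ c : ℚ, EffMod n X A fun P => c * E P - M P) →
          ∀ (d : ℕ) (x : Fin (d + 1) → K), x 0 ≠ 0 →
          (∀ i, ∀ P ∈ X, Divisorial n P → x i = 0 ∨ -M P ≤ P.ord (x i)) →
          AlgebraicIndependent (firstIntegrals F) (fun a : Fin d => x a.succ / x 0) →
          LinearIndependent K fun a : Fin d => dd F (x a.succ / x 0)) ∨
      (∀ (W : Submodule K (Derivation ℂ K K)) (κ : Place ℂ K → ℝ), Invariant G W →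
        CanonicalDivisor n X δ W κ → EffMod n X A κ) ∧
      (∀ (W : Submodule K (Derivation ℂ K K)) (κ : Place ℂ K → ℝ), Invariant G W →
        CanonicalDivisor n X δ W κ → κ ∈ A → ∀ m : ℕ, 0 < m → ∀ γ : Place ℂ K → ℝ,
        FinDiv n X γ → InvariantClass n X G γ →
        ∀ s : MultilinearMap K (fun _ : Fin m => W) (AlgebraicClosure K), s ≠ 0 →
        LeafAdapted n X δ γ W s → EffMod n X A γ) ∧
      (∀ p : ℕ, 0 < p → ∀ γ : Place ℂ K → ℝ, FinDiv n X γ → InvariantClass n X G γ →
        ∀ t : MTensor K (Fin p), t ≠ 0 → MAdapted n X δ γ t → EffMod n X A γ) ∧
      (∀ p : ℕ, 0 < p → ∀ γ ∈ A, ∀ t : MTensor K (Fin p), t ≠ 0 → MAdapted n X δ γ t →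
        (QEquiv n X (fun P => n * γ P) (fun P => -(p * (k P + δ P))) ∨
        ∃ (W : Submodule K (Derivation ℂ K K)) (κ : Place ℂ K → ℝ), W ≠ ⊥ ∧ W ≠ ⊤ ∧
          Invariant G W ∧ CanonicalDivisor n X δ W κ ∧ κ ∈ A) ∧
        ((∀ r : ℚ, r ≤ -(p / n : ℚ) → ¬ QEquiv n X γ fun P => r * (k P + δ P)) →
          ∃ (W : Submodule K (Derivation ℂ K K)) (κ : Place ℂ K → ℝ), W ≠ ⊥ ∧ W ≠ ⊤ ∧
            (∀ D ∈ W, ∀ E ∈ W, ⁅D, E⁆ ∈ W) ∧ Invariant G W ∧ CanonicalDivisor n X δ W κ ∧
            κ ∈ A)) ∧
      ∀ (V W : Submodule K (Derivation ℂ K K)) (κ κ' κ₁ κ₂ : Place ℂ K → ℝ), Invariant G V →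
        Invariant G W → CanonicalDivisor n X δ V κ → CanonicalDivisor n X δ W κ' →
        CanonicalDivisor n X δ (V ⊔ W) κ₁ → CanonicalDivisor n X δ (V ⊓ W) κ₂ →
        κ ∈ A → κ' ∈ A →
        κ₁ ∈ A ∧ κ₂ ∈ A ∧ QEquiv n X (fun P => κ₁ P + κ₂ P) fun P => κ P + κ' P := by
  classical
  obtain ⟨x, b, hFr⟩ := exists_fr htr
  have hfin := hFr.finite
  have hG' : ∀ g ∈ G, MPreserves X δ (fun _ => (0 : ℝ)) g := by
    intro σ hσ P hPX
    obtain ⟨Q, hQX, hQδ, hQ⟩ := hG σ hσ P hPX
    exact ⟨Q, hQX, hQδ, rfl, hQ⟩
  have hno' : ¬ Eff n X fun P => -((k P : ℝ) + δ P) := by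
    intro h
    have h1 := section_of_L (β := fun _ => (0 : ℝ)) hn htr hδ hω hω0 hk (by
      simpa only [add_zero] using h)
    simp only [add_zero] at h1
    exact hno h1
  refine ⟨base_groupF hX (fin_L htr hδ hX hω hω0 hk) (inv_L htr hω hω0 hk hG') hL hno',
    fun A₀ hA₀ => exists_maxF hX hA₀, fun A hA => ?_⟩
  rcases dichotomyF hn htr hδ hω hω0 hk hG' hX hA with
    ⟨F, κ, E, h1, h2, h3, h4, h5, h6, hfE, h7, h8, h9, h10, h11, h12⟩ | ⟨h1, h2, h3, h4, h5⟩
  · exact Or.inl ⟨F, κ, E, h1, h2, h3, h4, h5, h6, hfE, h7, h8, h9, h10, h11,
      negative_tensor hn htr hδ hω hω0 hk hA.toNullGroup h2 h5 h8, h12⟩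
  · exact Or.inr ⟨h1, h2, h3, fun p hp γ hγ t ht0 ht => ⟨h4 p hp γ hγ t ht0 ht, fun hr =>
      fol_of_tensor hn htr hδ hω hω0 hk hG' hno' hA.toNullGroup
        (mem_or_of_effMod htr hδ hA.toNullGroup h1) hp hγ hr ht ht0⟩, h5⟩

end Pool.Agent.Results.MP_bc213e_ag.EffectiveSemistability
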