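import Pool.Agent.Zk28.TF.SP6

/-!
# Degree orders and foliations for pairs without pluricanonical sections

Let `(X, Δ)` be a pair of dimension `n ≥ 1` with `0 ≤ Δ ≤ 1`, for instance an l.c. pair, let `G` be a set
of automorphisms of `X` in codimension one preserving `Δ`, for instance all of them, and let
`L = K_X + Δ`.

A degree order on `X` is a total preorder on the divisors on `X` with real coefficients, compatible with
addition and division by positive integers, such that effective divisors and principal divisors are
`≥ 0`; so it is an order of the divisor classes. The degree with respect to a movable class (a movable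
curve, or the product of `n - 1` ample divisors) defines a degree order; other degree orders are
lexicographic, or not described by real numbers at all.

Theorem. For every real divisor `B`, no positive multiple of `K_X + Δ + B` has a nonzero section,
`κ(X, K_X + Δ + B) = -∞`, if and only if `K_X + Δ + B` is negative for some degree order.

For every degree order for which `L = K_X + Δ` is negative there is a `G`-invariant foliation `F ≠ 0` on
`X` with a negative canonical class, `K_F < 0`, and the following properties.
* It has the largest slope: `K_W ≥ (rk W / rk F) K_F` for all `G`-invariant distributions `W`. For the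
  tangent bundle this says that `- K_F ≥ - (rk F / n) L > 0`.
* If there is a nonzero multivalued leafwise adapted tensor of degree `m` on `F` with values in a divisor
  `C` the class of which is `G`-invariant then `C ≥ - (m / rk F) K_F`.
* If there is a nonzero multivalued adapted tensor of degree `p` on `X` with values in such a divisor `C`
  then `C ≥ (p (n - 1) / rk F) K_F`.
* The leaves of `F` have algebraic images under the rational maps given by the sections of all divisors
  `M` with a `G`-invariant class and `M ≤ - c K_F` for some rational number `c`, in particular if
  `M ≤ - c L` for some `c ≥ 0`.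

In particular, if nonvanishing fails for the pair, `κ(X, K_X + Δ) = -∞`, then there is a foliation `F` of
positive rank, invariant under all automorphisms in codimension one, for which the sections of
`(F*) ^ (⊗ m) ⊗ q L` vanish for all `m ≥ 1` and all `q > - m / n`, also on all finite coverings.

If the degree order is given by a movable class then `F` is the foliation of positive slope of
Bogomolov, McQuillan, Campana and Paun, and the first assertion is analogous to the theorem of
Boucksom, Demailly, Paun and Peternell: `K_X + Δ` is not pseudo-effective if and only if it is negative
for some movable class. If `K_X + Δ` is not pseudo-effective then there is a degree order for which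
`K_X + Δ + ε H` is negative, `H` ample, so that `H ≤ - c L` and the leaves are algebraic: this is the
theorem of these authors on which the proof of uniruledness is built. The case which is open for the
nonvanishing problem is that of a pseudo-effective `K_X + Δ` with `κ(X, K_X + Δ) = -∞`. Then no movable
class is negative on `K_X + Δ`, but there are degree orders with this property, and the foliation. Between
the two cases are those in which `κ(X, K_X + Δ + B) = -∞` for some effective divisor `B` which is not
big: then there is a degree order for which `B ≤ - L`, and the images of the leaves under the sections of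
the multiples of `B` are algebraic.

The function-field language of the starting repository is used. `K` is the function field of `X`, the
prime divisors of `X` are places `P` of `K` (`Place`, `Divisorial`), `P.ord` is the order along `P`, and
`X` is given by the set of its prime divisors. The divisors `Δ` and `B` are given by their coefficients
`δ P` and `β P`, and `K_X` is the divisor `k` of a rational `n`-form `ω`.

Proof. The determinants of the `G`-invariant distributions with their orbifold structure have a
Harder-Narasimhan theory for the degree order, with slopes in an ordered vector space: `F` is the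
smallest one of largest slope. A leafwise tensor gives, by the theory of optimal destabilizing flags
(Kempf) for the family of all these tensors, a relation between determinants of invariant distributions
in `F`; the curvature `F × F → T / F` of `F`, if it is not zero, gives another one in the same way. For
the algebraicity one takes a minimal system of words of vector fields in `F` for which the determinant
of their values at the monomials in some algebraically independent functions does not vanish; this is a
leafwise tensor.

(The file `Pool/Agent/Zk26/TF/LeafDiv.lean`, which compares the determinants of distributions with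
divisors of leafwise forms, is by helper26.)
-/

set_option autoImplicit false

open FF Pool.Agent.W602.GT Pool.Agent.Zk28.TS Pool.Agent.Zk28.TF

namespace Pool.Agent.Results.MP_bc213e_ag.NegativeFoliation

/-- **Degree orders and negative foliations.** Let `X` be a variety of dimension `n ≥ 1` with function
field `K`, given by the set of its prime divisors, `Δ` a boundary with coefficients `δ P` in `[0, 1]`, `k`
the divisor of a nonzero rational `n`-form `ω`, and `G` a set of automorphisms of `X` in codimension one
preserving `Δ`. For a real divisor `B` with coefficients `β P` positive multiples of `K_X + Δ + B` have no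
nonzero sections if and only if `K_X + Δ + B` is not `≥ 0` for some degree order `Pos`. For each degree
order for which `K_X + Δ` is not `≥ 0` there are a nonzero distribution `F`, closed under the Lie bracket
and invariant under `G`, and a canonical divisor `κ` of `F`, not `≥ 0`, such that
`κ' ≥ (rk W / rk F) κ` for the canonical divisors `κ'` of all invariant distributions `W`,
`γ ≥ - (m / rk F) κ` for the divisors of values `γ` of invariant class of nonzero leafwise tensors of
degree `m` on `F`, `γ ≥ (p (n - 1) / rk F) κ` for those of nonzero tensors of degree `p` on `X`, and the
leaves of `F` have algebraic images under the maps given by sections of divisors `M ≤ - c κ` of invariant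
class. -/
theorem result (n : ℕ) (hn : 1 ≤ n) (K : Type) [Field K] [Algebra ℂ K]
    [Algebra.EssFiniteType ℂ K] (htr : Algebra.trdeg ℂ K = n) (X : Set (Place ℂ K))
    (δ : Place ℂ K → ℝ) (hδ : ∀ P ∈ X, 0 ≤ δ P ∧ δ P ≤ 1)
    (ω : (Fin n → Derivation ℂ K K) → K) (hω : IsPluri 1 ω) (hω0 : ∃ D, ω D ≠ 0)
    (k : Place ℂ K → ℤ) (hk : DivOf n X ω k) (G : Set (K ≃ₐ[ℂ] K))
    (hG : ∀ σ ∈ G, ∀ P ∈ X, ∃ Q ∈ X, δ Q = δ P ∧ ∀ f, Q.ord (σ f) = P.ord f) :
    (∀ β : Place ℂ K → ℝ, (¬ ∃ N : ℕ, 0 < N ∧ ∃ η : (Fin n → Derivation ℂ K K) → K,
        IsSection n X (fun P => δ P + β P) N η ∧ ∃ D, η D ≠ 0) ↔
      ∃ Pos, DegreeOrder n X Pos ∧ (fun P => k P + δ P + β P) ∉ Pos) ∧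
    ∀ Pos, DegreeOrder n X Pos → (fun P => k P + δ P) ∉ Pos →
      ∃ (F : Submodule K (Derivation ℂ K K)) (κ : Place ℂ K → ℝ), F ≠ ⊥ ∧
        (∀ D ∈ F, ∀ E ∈ F, ⁅D, E⁆ ∈ F) ∧ Invariant G F ∧ CanonicalDivisor n X δ F κ ∧
        κ ∉ Pos ∧
        (∀ (W : Submodule K (Derivation ℂ K K)) (κ' : Place ℂ K → ℝ), Invariant G W →
          CanonicalDivisor n X δ W κ' →
          (fun P => κ' P - Module.finrank K W / Module.finrank K F * κ P) ∈ Pos) ∧
        (∀ m : ℕ, 0 < m → ∀ γ : Place ℂ K → ℝ, InvariantClass n X G γ →
          ∀ s : MultilinearMap K (fun _ : Fin m => F) (AlgebraicClosure K), s ≠ 0 →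
            LeafAdapted n X δ γ F s →
            (fun P => γ P + m / Module.finrank K F * κ P) ∈ Pos) ∧
        (∀ p : ℕ, 0 < p → ∀ γ : Place ℂ K → ℝ, InvariantClass n X G γ →
          ∀ t : MTensor K (Fin p), t ≠ 0 → MAdapted n X δ γ t →
          (fun P => γ P - p * (n - 1) / Module.finrank K F * κ P) ∈ Pos) ∧
        ∀ M : Place ℂ K → ℝ, InvariantClass n X G M →
          (∃ c : ℚ, (fun P => -(c * κ P) - M P) ∈ Pos) →
          ∀ (d : ℕ) (x : Fin (d + 1) → K), x 0 ≠ 0 →
          (∀ i, ∀ P ∈ X, Divisorial n P → x i = 0 ∨ -M P ≤ P.ord (x i)) →
          AlgebraicIndependent (firstIntegrals F) (fun a : Fin d => x a.succ / x 0) →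
          LinearIndependent K fun a : Fin d => dd F (x a.succ / x 0) := by
  classical
  obtain ⟨x, b, hFr⟩ := exists_fr htr
  have hfin := hFr.finite
  have hG' : ∀ g ∈ G, MPreserves X δ (fun _ => (0 : ℝ)) g := by
    intro σ hσ P hPX
    obtain ⟨Q, hQX, hQδ, hQ⟩ := hG σ hσ P hPX
    exact ⟨Q, hQX, hQδ, rfl, hQ⟩
  exact ⟨fun β => exists_degreeOrder hn htr hδ hω hω0 hk,
    fun Pos hPos hL => order_fol hn htr hδ hω hω0 hk hG' hPos hL⟩

end Pool.Agent.Results.MP_bc213e_ag.NegativeFoliation
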