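import Pool.Agent.Zk28.TF.Prop7

/-!
# The slope filtration of a counterexample of the nonvanishing conjecture

Let `(X, Δ)` be a pair of dimension `n ≥ 1` with `0 ≤ Δ ≤ 1`, for instance an l.c. pair, let `G` be a set
of automorphisms of `X` in codimension one preserving `Δ`, and let `L = K_X + Δ`. Suppose that the regular
functions on `X` are constant and that no multiple `- M L`, `M > 0`, is linearly equivalent to a nonzero
effective divisor. This is so if `X` is projective and `L` is pseudo-effective, for instance nef.

Theorem. Suppose that `κ(X, L) = -∞`, so that `(X, Δ)` is a counterexample of the nonvanishing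
conjecture if it is l.c. and `L` is nef. Then there are two possibilities.

(A) There is a `G`-invariant foliation `F` on `X`, different from `0` and from the tangent bundle, which
has no leafwise tensors with values in the multiples of `L`: for all `m ≥ 1` and all rational numbers
`q`, positive or negative, all multivalued leafwise adapted tensors of degree `m` on `F` with values in
`q L` are zero.

(B) The multiples of `L` are rigid: if the canonical classes of invariant distributions and an effective
divisor `E` add up to a rational multiple of `L`, then `E = 0` and all these canonical classes are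
rational multiples of `L`. In particular no invariant distribution has a canonical class `q L - E` with
a nonzero effective divisor `E`. The invariant distributions with canonical classes in `ℚ L` form a
lattice, and the coefficient is additive. The tangent bundle has a canonical filtration in this
lattice: there are invariant distributions `F t`, `t` rational, `F t' ⊆ F t` for `t ≤ t'`, the tangent
bundle for small `t` and `0` for large `t`, but not `0` for `t < 1 / n`, with canonical classes `c t * L`,
where `F t` is the smallest distribution in the lattice for which `c t - t rk(F t)` is maximal. For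
`t ≥ 0` they are foliations. A nonzero multivalued leafwise adapted tensor of degree `m` on `F t` with
values in `q L - E`, `E ≥ 0` with an invariant class, exists only if `E = 0` and `q < - m t`. If `X` has a
nonzero multivalued adapted tensor of degree `p` with values in `r L` then, for `r > - p / n`, the
foliation `F (1 / n)` is not `0` and not the tangent bundle, and for `r ≠ - p / n` there is some proper
nonzero invariant distribution with the canonical class in `ℚ L`.

(`K_X + Δ` itself is a tensor of degree `n` with values in `- L`, for which `r = - p / n`. The canonical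
form and its powers are the only tensors for which nothing is said.)

In case (B) the foliation `F (1 / n)` has a canonical class `c L`, where `c > rk(F) / n`. So it is a
foliation of smaller rank for which nonvanishing is the same question as for `X`, and if `L` is nef then
`F` is a foliation with nef canonical class.

The function-field language of the starting repository is used. `K` is the function field of `X`, the
prime divisors of `X` are places `P` of `K` (`Place`, `Divisorial`), `P.ord` is the order along `P`, and
`X` is given by the set of its prime divisors. The divisor `Δ` is given by its coefficients `δ P`, and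
`K_X` is the divisor `k` of a rational `n`-form `ω`.

Proof. Suppose that there is no foliation as in (A). Then for every degree order of the divisor classes
(a total preorder for which effective divisors are nonnegative) with `L < 0` the determinants of the
invariant distributions are at most a multiple of `- L`: otherwise the maximal slopes of these
distributions would be infinitely large compared to `L`, and the Harder-Narasimhan theory of the
invariant distributions would give a foliation as in (A). If a class `D` is not a multiple of `L`, and no
`a D + b L`, `a > 0`, is anti-effective, there is an order for which `L < 0` and `D` is infinitely large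
compared to `L`. If all these classes are bounded this proves the rigidity. The Wronskian relations
between the determinants of distributions, for a sum and an intersection, for brackets and for leafwise
tensors, become equalities by the rigidity, with all their terms in `ℚ L`, so that the usual arguments
for the Harder-Narasimhan filtration can be used in the lattice of the distributions with the canonical
class in `ℚ L`.

(The file `Pool/Agent/Zk26/TF/LeafDiv.lean`, which compares the determinants of distributions with
divisors of leafwise forms, is by helper26.)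
-/

set_option autoImplicit false

open FF Pool.Agent.W602.GT Pool.Agent.Zk28.TS Pool.Agent.Zk28.TF

namespace Pool.Agent.Results.MP_bc213e_ag.SlopeFiltration

/-- **The slope filtration.** Let `X` be a variety of dimension `n ≥ 1` with function field `K`, given by the
set of its prime divisors, `Δ` a boundary with coefficients `δ P` in `[0, 1]`, `k` the divisor of a
nonzero rational `n`-form `ω`, `G` a set of automorphisms in codimension one preserving `Δ`, and
`L = K_X + Δ`. Suppose that the regular functions are constant and that `- M L`, `M > 0`, is not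
equivalent to a nonzero effective divisor (for instance `X` projective, `L` pseudo-effective), and that
no positive multiple of `L` has a nonzero section. Then (A) there is a distribution `F`, not zero and
not the tangent bundle, closed under the Lie bracket and invariant under `G`, such that for all `m > 0`
and all rational `q` all multivalued leafwise adapted tensors of degree `m` on `F` with values in `q L`
are zero; or (B) canonical divisors of invariant distributions and an effective divisor `E` with a sum
in `ℚ L` are in `ℚ L`, and `E = 0`; the invariant distributions with canonical class in `ℚ L` form a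
lattice, and there is the filtration `F t`. -/
theorem result (n : ℕ) (hn : 1 ≤ n) (K : Type) [Field K] [Algebra ℂ K]
    [Algebra.EssFiniteType ℂ K] (htr : Algebra.trdeg ℂ K = n) (X : Set (Place ℂ K))
    (δ : Place ℂ K → ℝ) (hδ : ∀ P ∈ X, 0 ≤ δ P ∧ δ P ≤ 1)
    (ω : (Fin n → Derivation ℂ K K) → K) (hω : IsPluri 1 ω) (hω0 : ∃ D, ω D ≠ 0)
    (k : Place ℂ K → ℤ) (hk : DivOf n X ω k) (G : Set (K ≃ₐ[ℂ] K))
    (hG : ∀ σ ∈ G, ∀ P ∈ X, ∃ Q ∈ X, δ Q = δ P ∧ ∀ f, Q.ord (σ f) = P.ord f)
    (hL : NotAntiEffective n X fun P => k P + δ P)
    (hno : ¬ ∃ N : ℕ, 0 < N ∧ ∃ η : (Fin n → Derivation ℂ K K) → K,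
      IsSection n X δ N η ∧ ∃ D, η D ≠ 0) :
    (∃ F : Submodule K (Derivation ℂ K K), F ≠ ⊥ ∧ F ≠ ⊤ ∧
      (∀ D ∈ F, ∀ E ∈ F, ⁅D, E⁆ ∈ F) ∧ Invariant G F ∧
      ∀ m : ℕ, 0 < m → ∀ q : ℚ, ∀ s : MultilinearMap K (fun _ : Fin m => F) (AlgebraicClosure K),
        LeafAdapted n X δ (fun P => q * (k P + δ P)) F s → s = 0) ∨
    (∀ (N : ℕ) (W : Fin N → Submodule K (Derivation ℂ K K)) (κ : Fin N → Place ℂ K → ℝ),
      (∀ i, Invariant G (W i)) → (∀ i, CanonicalDivisor n X δ (W i) (κ i)) →
      ∀ (q : ℚ) (E : Place ℂ K → ℝ), (∀ P ∈ X, Divisorial n P → 0 ≤ E P) →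
      QEquiv n X (fun P => ∑ i, κ i P + E P) (fun P => q * (k P + δ P)) →
      (∀ P ∈ X, Divisorial n P → E P = 0) ∧
        ∀ i, ∃ c : ℚ, QEquiv n X (κ i) fun P => c * (k P + δ P)) ∧
    (∀ (V W : Submodule K (Derivation ℂ K K)) (a b : ℚ),
      InvariantMultiple n X δ (fun P => k P + δ P) G V a →
      InvariantMultiple n X δ (fun P => k P + δ P) G W b → (V = W → a = b) ∧
      ∃ c d : ℚ, c + d = a + b ∧ InvariantMultiple n X δ (fun P => k P + δ P) G (V ⊔ W) c ∧
        InvariantMultiple n X δ (fun P => k P + δ P) G (V ⊓ W) d) ∧
    ∃ (F : ℚ → Submodule K (Derivation ℂ K K)) (c : ℚ → ℚ),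
      (∀ t, InvariantMultiple n X δ (fun P => k P + δ P) G (F t) (c t)) ∧
      (∀ t t', t ≤ t' → F t' ≤ F t) ∧ (∃ t, F t = ⊤) ∧ (∃ t, F t = ⊥) ∧
      (∀ t < 1 / (n : ℚ), F t ≠ ⊥) ∧
      (∀ (t : ℚ) (W : Submodule K (Derivation ℂ K K)) (b : ℚ),
        InvariantMultiple n X δ (fun P => k P + δ P) G W b →
        b - t * Module.finrank K W ≤ c t - t * Module.finrank K (F t) ∧
        (W < F t → b - t * Module.finrank K W < c t - t * Module.finrank K (F t))) ∧
      (∀ t, 0 ≤ t → ∀ D ∈ F t, ∀ E ∈ F t, ⁅D, E⁆ ∈ F t) ∧
      (∀ (t : ℚ) (m : ℕ), 0 < m → ∀ (q : ℚ) (E : Place ℂ K → ℝ),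
        (∀ P ∈ X, Divisorial n P → 0 ≤ E P) → InvariantClass n X G E →
        ∀ s : MultilinearMap K (fun _ : Fin m => F t) (AlgebraicClosure K), s ≠ 0 →
        LeafAdapted n X δ (fun P => q * (k P + δ P) - E P) (F t) s →
        (∀ P ∈ X, Divisorial n P → E P = 0) ∧ q < -(m * t)) ∧
      ∀ (p : ℕ), 0 < p → ∀ (r : ℚ) (t : MTensor K (Fin p)), t ≠ 0 →
        MAdapted n X δ (fun P => r * (k P + δ P)) t →
        (-(p / n : ℚ) < r → F (1 / n) ≠ ⊥ ∧ F (1 / n) ≠ ⊤) ∧
        (r ≠ -(p / n : ℚ) → ∃ (W : Submodule K (Derivation ℂ K K)) (b : ℚ), W ≠ ⊥ ∧ W ≠ ⊤ ∧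
          InvariantMultiple n X δ (fun P => k P + δ P) G W b) := by
  classical
  obtain ⟨x, b, hFr⟩ := exists_fr htr
  have hfin := hFr.finite
  have hG' : ∀ g ∈ G, MPreserves X δ (fun _ => (0 : ℝ)) g := by
    intro σ hσ P hPX
    obtain ⟨Q, hQX, hQδ, hQ⟩ := hG σ hσ P hPX
    exact ⟨Q, hQX, hQδ, rfl, hQ⟩
  have hno' : ¬ Eff n X fun P => -((k P : ℝ) + δ P) := by
    intro h
    have h1 := section_of_L (β := fun _ => (0 : ℝ)) hn htr hδ hω hω0 hk (by
      simpa only [add_zero] using h)
    simp only [add_zero] at h1
    exact hno h1
  by_cases hA : ∃ F, TFree n X δ (fun P => k P + δ P) G F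
  · exact Or.inl hA
  refine Or.inr ?_
  have H : Ctx n X δ k G ω := ⟨hn, htr, hδ, hω, hω0, hk, hG', hL, hno', hA⟩
  refine ⟨fun N W κ hW hκ q E hE h => H.rigid_can hW hκ hE h, fun V W a b hV hW => ?_, ?_⟩
  · have h1 := (ll_iff htr hδ).mp hV
    have h2 := (ll_iff htr hδ).mp hW
    refine ⟨?_, ?_⟩
    · rintro rfl
      exact ll_unique hno' h1 h2
    · obtain ⟨c, d, h3, h4, h5⟩ := H.lattice h1 h2
      exact ⟨c, d, h5, (ll_iff htr hδ).mpr h3, (ll_iff htr hδ).mpr h4⟩
  · obtain ⟨V, c, h1, h2, h3, h4, h5, h6, h7, h8⟩ := H.filtration
    refine ⟨V, c, fun t => (ll_iff htr hδ).mpr (h1 t).mem, h2, h3, h4, h5, fun t W b hW => ?_, h6, h7,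
      fun p hp r t ht0 ht => ?_⟩
    · have h9 := (ll_iff htr hδ).mp hW
      exact ⟨(h1 t).max W b h9, (h1 t).strict W b h9⟩
    · obtain ⟨h9, h10⟩ := h8 p hp r t ht0 ht
      refine ⟨h9, fun hr => ?_⟩
      obtain ⟨W, b, hW, hW0, hW1⟩ := h10 hr
      exact ⟨W, b, hW0, hW1, (ll_iff htr hδ).mpr hW⟩

end Pool.Agent.Results.MP_bc213e_ag.SlopeFiltration
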